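import Mathlib
import Pool.Agent.H.MP_86beeb_co.A

set_option autoImplicit false

namespace Pool.Agent.Results.MP_86beeb_co.Distinct

open Pool.Agent.H.MP_86beeb_co.A

/-- `G` is `(-1,1,t)`-threshold -/
def InC {V : Type} (t : ℝ) (G : SimpleGraph V) : Prop :=
  ∃ r : V → ℝ, ∀ v w, v ≠ w → (G.Adj v w ↔ ((-1 ≤ r v + r w ∧ r v + r w < 1) ∨ t ≤ r v + r w))

theorem result (t t' : ℝ) (ht : 1 < t) (h : t < t') :
    ∃ (n : ℕ) (G : SimpleGraph (Fin n)), InC t' G ∧ ¬ InC t G := by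
  obtain ⟨n, ρ, hρ⟩ := sep t t' ht h
  refine ⟨n, ⟨fun v w => v ≠ w ∧ P t' (ρ v + ρ w), ⟨fun v w e => ⟨e.1.symm, add_comm (ρ v) _ ▸ e.2⟩⟩,
    ⟨fun v e => e.1 rfl⟩⟩, ⟨ρ, fun v w e => and_iff_right e⟩, ?_⟩
  rintro ⟨r, hr⟩
  exact hρ ⟨r, fun v w e => (and_iff_right e).symm.trans (hr v w e)⟩

end Pool.Agent.Results.MP_86beeb_co.Distinct
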